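import Pool.Agent.U762.AQ.Fin

set_option autoImplicit false

/-!
# For almost all small random perturbations of the aliquot map no aliquot sequence is unbounded

Let `s(n)` be the sum of the proper divisors of `n`. To the value `s(n)` a random integer `ω(n)` is added, uniform in
`0, 1, ..., L(n) - 1`, where `L(n)` is only at least `100 log n` (and at most `n / 20`) for large `n`. The `ω(n)` are
independent, and they are chosen once and for all, so that `n ↦ s(n) + ω(n)` is a fixed map. We show that almost
surely all its sequences are finite sets: all are bounded, and are periodic from some place on. Moreover the sequence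
of `n` has at most `100 log (n + 2) + C` different terms, for all `n`. So the set `U` of the question is empty for
almost all the perturbed maps (the analogue of the conjecture of Catalan and Dickson).

Proof. The mean of `s` over an interval of length `L` which ends at `N` is at most `N (3/4 + 2 (1 + log N) / L)`.
So for the chain in which the perturbations are chosen anew at each step the potential `s(x) + x / 20 + 1` decreases
in the mean by the factor `19 / 20` at each step from a large `x`. The orbits of the fixed random map agree with those
of the chain up to their first repetition; they have few terms below any given bound before it.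
-/

namespace Pool.Agent.Results.MP_43c8d1_nt.RandomlyPerturbedMap

open MeasureTheory Filter Finset
open scoped ENNReal

/-- The sum of the proper divisors of `m` (and `0` for `m = 0`). -/
def s (m : ℕ) : ℕ := ∑ d ∈ m.properDivisors, d

/-- The aliquot map perturbed by `ω`. -/
def pert (ω : ℕ → ℕ) (n : ℕ) : ℕ := s n + ω n

/-- The set of the terms `n, T(n), T(T(n)), ...` of the sequence of `n`, for `T = pert ω`. -/
def terms (ω : ℕ → ℕ) (n : ℕ) : Set ℕ := Set.range fun i : ℕ => (pert ω)^[i] n

/-- The uniform law on `0, 1, ..., k - 1`. -/
noncomputable def uniform (k : ℕ) : Measure ℕ := (k : ℝ≥0∞)⁻¹ • ∑ u ∈ range k, Measure.dirac u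

/-- The law of independent perturbations `ω n`, uniform on `0, 1, ..., L n - 1`. -/
noncomputable def environment (L : ℕ → ℕ) : Measure (ℕ → ℕ) := Measure.infinitePi fun n => uniform (L n)

/-- **Theorem.** Let `L n ≥ 1` for all `n`, and `100 log n ≤ L n ≤ n / 20` for all large `n`. Almost surely for some `C`
all the sequences of the perturbed map are finite sets, of at most `100 log (n + 2) + C` elements. -/
theorem result (L : ℕ → ℕ) (hL : ∀ n, 1 ≤ L n)
    (h : ∀ᶠ n : ℕ in atTop, 100 * Real.log n ≤ L n ∧ (L n : ℝ) ≤ n / 20) :
    IsProbabilityMeasure (environment L) ∧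
    ∀ᵐ ω ∂(environment L), ∃ C : ℕ, ∀ n : ℕ,
      (terms ω n).Finite ∧ ((terms ω n).ncard : ℝ) ≤ 100 * Real.log (n + 2) + C := by
  obtain ⟨n₀, hn₀⟩ := eventually_atTop.1 h
  refine ⟨?_, ?_⟩
  · haveI : ∀ n, IsProbabilityMeasure (uniform (L n)) := fun n => Pool.Agent.U762.AQ.unif_prob (hL n)
    unfold environment
    infer_instance
  · exact Pool.Agent.U762.AQ.fin L hL n₀ (fun n hn => (hn₀ n hn).1) (fun n hn => (hn₀ n hn).2)

end Pool.Agent.Results.MP_43c8d1_nt.RandomlyPerturbedMap
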